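import Pool.Agent.H84.ND.Targets4
import Pool.Agent.H54.AW.DC3
import Pool.Agent.H58.LV.DFI

/-!
# MP_70ba79_ag: affine varieties over products of orbifold planes (row XPO)

Copy of `Pool/Agent/H84/SL/XPR.lean`.
-/

set_option autoImplicit false

namespace Pool.Agent.H70.ND

open MvPolynomial SC Pool.Agent.H27.LV Pool.Agent.H84.SM Pool.Agent.H30.AX Pool.Agent.H84.ND
open Pool.Agent.H84.SL (pd GenFinP aeval_grp hom_of_grp)

/-- XPO: affine varieties over products of orbifold planes -/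
theorem pf_XPO (hFCO : T_FCO) : T_XPO := by
  have hDC3 : Pool.Agent.H30.AX.T_DC3 :=
    Pool.Agent.H54.AW.pf_DC3 pfm (Pool.Agent.H58.LV.dfi dor pfm rat) pfi
  intro k _ _ _ ι _ _ _ G d hd hG hSf
  classical
  choose B mm N Ψ hΨ hΨh hB using hSf
  refine ⟨Ψ, mm, fun i => ⟨hΨ i, N i, hΨh i⟩, ?_⟩
  intro σ _ P φ hP hdom hgen hGφ hunit
  choose m e c he hc hlead hrel using hgen
  obtain ⟨n, ⟨ε⟩⟩ : ∃ n : ℕ, Nonempty (Fin (n + 1) ≃ ι × Fin 3) := by
    refine ⟨Fintype.card (ι × Fin 3) - 1, ⟨(Fintype.equivFinOfCardEq ?_).symm⟩⟩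
    have h := Fintype.card_pos (α := ι × Fin 3)
    omega
  refine ⟨(∏ i, (aeval (φ i) (G i) * aeval (φ i) (Ψ i))) *
    ∏ s, aeval (fun p : ι × Fin 3 => φ p.1 p.2) (c s (e s)),
    (∑ s, ∑ i, m s i) * ∑ i, B i, ?_, ?_⟩
  · refine hP.mul_notMem ?_ ?_
    · rw [Ideal.IsPrime.prod_mem_iff]
      push Not
      exact fun i _ => hP.mul_notMem (hGφ i) (hdom i).2
    · rw [Ideal.IsPrime.prod_mem_iff]
      push Not
      exact fun s _ => hlead s
  intro K _ _ _ htr S z hPz hreg hnc hh D0 hD0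
  rw [map_mul, map_prod, map_prod, mul_ne_zero_iff, Finset.prod_ne_zero_iff,
    Finset.prod_ne_zero_iff] at hh
  obtain ⟨hGΨ, hL⟩ := hh
  obtain ⟨Z, hZ⟩ : ∃ Z : ι → Fin 3 → K, Z = fun i j => aeval z (φ i j) := ⟨_, rfl⟩
  have hcomp : ∀ (i : ι) (g : MvPolynomial (Fin 3) k),
      aeval z (aeval (φ i) g) = aeval (Z i) g := fun i g => by
    have h : ((aeval z : MvPolynomial σ k →ₐ[k] K).comp (aeval (φ i))) = aeval (Z i) := by
      refine MvPolynomial.algHom_ext fun j => ?_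
      simp [hZ]
    rw [← h]
    rfl
  have hcompP : ∀ g : MvPolynomial (ι × Fin 3) k,
      aeval z (aeval (fun p : ι × Fin 3 => φ p.1 p.2) g) =
        aeval (fun p : ι × Fin 3 => Z p.1 p.2) g := fun g => by
    have h : ((aeval z : MvPolynomial σ k →ₐ[k] K).comp
        (aeval (fun p : ι × Fin 3 => φ p.1 p.2))) = aeval (fun p : ι × Fin 3 => Z p.1 p.2) := by
      refine MvPolynomial.algHom_ext fun j => ?_
      simp [hZ]
    rw [← h]
    rfl
  have hGz : ∀ i, aeval (Z i) (G i) ≠ 0 := fun i => by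
    have h := hGΨ i (Finset.mem_univ i)
    rw [map_mul, hcomp, hcomp] at h
    exact left_ne_zero_of_mul h
  have hΨz : ∀ i, aeval (Z i) (Ψ i) ≠ 0 := fun i => by
    have h := hGΨ i (Finset.mem_univ i)
    rw [map_mul, hcomp, hcomp] at h
    exact right_ne_zero_of_mul h
  have h0 : ∀ i, ∃ j, Z i j ≠ 0 := by
    intro i
    by_contra h
    push Not at h
    apply hGz i
    have h1 : Z i = fun j => (0 : K) * Z i j := by
      funext j
      rw [h j, mul_zero]
    rw [h1, Pool.Agent.H84.SM.aeval_smul_hom (G i) (d i) (hG i),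
      zero_pow (by have := hd i; omega), zero_mul]
  choose j0 hj0 using h0
  have hcrv : ∀ i, Crm (G i) (d i) (mm i) (fun j => (Z i (j0 i))⁻¹ * Z i j) S := by
    intro i
    obtain ⟨r, J, ε', hε', hid⟩ := hunit i
    exact hFCO k K (G i) (d i) (mm i) (hG i) σ P (φ i) r J ε' hε' hid S z hPz hreg (Z i)
      (fun j => by rw [hZ]) (hGz i) (j0 i) (hj0 i)
  obtain ⟨zz, hzz⟩ : ∃ zz : ι × Fin 3 → K, zz = fun p => (Z p.1 (j0 p.1))⁻¹ * Z p.1 p.2 :=
    ⟨_, rfl⟩
  obtain ⟨z', hz'⟩ : ∃ z' : Fin (n + 1) → K, z' = fun q => zz (ε q) := ⟨_, rfl⟩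
  have hren : ∀ g : MvPolynomial (ι × Fin 3) k, aeval z' (rename ε.symm g) = aeval zz g := by
    intro g
    rw [aeval_rename]
    congr 2
    funext p
    simp [hz']
  have hinv : ∀ i (N : ℕ), ((Z i (j0 i))⁻¹) ^ N ≠ 0 := fun i N =>
    pow_ne_zero _ (inv_ne_zero (hj0 i))
  have hgrp : ∀ s l, aeval zz (c s l) = (∏ i, ((Z i (j0 i))⁻¹) ^ m s i) *
      aeval (fun p : ι × Fin 3 => Z p.1 p.2) (c s l) := by
    intro s l
    rw [hzz]
    exact aeval_grp (m s) (c s l) (hc s l) (fun i => (Z i (j0 i))⁻¹) _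
  obtain ⟨i1⟩ := (inferInstance : Nonempty ι)
  have hone : ∃ q, z' q = 1 := by
    refine ⟨ε.symm (i1, j0 i1), ?_⟩
    rw [hz']
    simp only [Equiv.apply_symm_apply, hzz]
    exact inv_mul_cancel₀ (hj0 i1)
  obtain ⟨hdeg, hconst⟩ := hDC3 k K htr σ n (fun s => ∑ i, m s i) e
    (fun s l => rename ε.symm (c s l)) z z' he
    (fun s l => (hom_of_grp (m s) (c s l) (hc s l)).rename_isHomogeneous) hone
    (by
      intro s
      rw [hren, hgrp]
      refine mul_ne_zero (Finset.prod_ne_zero_iff.2 fun i _ => hinv i _) ?_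
      rw [← hcompP]
      exact hL s (Finset.mem_univ s))
    (by
      intro s
      have h1 := hPz _ (hrel s)
      rw [map_sum] at h1
      have h2 : ∑ l ∈ Finset.range (e s + 1), aeval z' (rename ε.symm (c s l)) * z s ^ l =
          (∏ i, ((Z i (j0 i))⁻¹) ^ m s i) * ∑ l ∈ Finset.range (e s + 1),
            aeval z (aeval (fun p : ι × Fin 3 => φ p.1 p.2) (c s l) * X s ^ l) := by
        rw [Finset.mul_sum]
        refine Finset.sum_congr rfl fun l _ => ?_
        rw [hren, hgrp, map_mul, map_pow, aeval_X, ← hcompP]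
        ring
      rw [h2, h1, mul_zero])
  -- the degree of `z'`
  have hsum : deg k z' ≤ ∑ i, deg k (fun j => (Z i (j0 i))⁻¹ * Z i j) := by
    have h1 : ∀ v : DV k K, poleOrder v z' ≤
        ∑ i, poleOrder v (fun j => (Z i (j0 i))⁻¹ * Z i j) := by
      intro v
      unfold poleOrder
      refine Finset.sup_le fun q _ => ?_
      have h2 : (-(v.ord (z' q))).toNat ≤
          Finset.univ.sup fun j => (-(v.ord ((Z (ε q).1 (j0 (ε q).1))⁻¹ * Z (ε q).1 j))).toNat := by
        rw [hz', hzz]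
        exact Finset.le_sup
          (f := fun j => (-(v.ord ((Z (ε q).1 (j0 (ε q).1))⁻¹ * Z (ε q).1 j))).toNat)
          (Finset.mem_univ (ε q).2)
      exact h2.trans (Finset.single_le_sum (f := fun i => Finset.univ.sup fun j =>
        (-(v.ord ((Z i (j0 i))⁻¹ * Z i j))).toNat) (fun _ _ => Nat.zero_le _)
        (Finset.mem_univ (ε q).1))
    have hfin : ∀ i, (Function.support fun v : DV k K =>
        poleOrder v (fun j => (Z i (j0 i))⁻¹ * Z i j)).Finite := fun i =>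
      pfi k K htr (Fin 3) _
    unfold deg
    rw [← finsum_sum_comm _ _ (fun i _ => hfin i)]
    refine finsum_le_finsum' ?_ ?_ h1
    · exact pfi k K htr _ z'
    · refine (Set.finite_iUnion hfin).subset ?_
      intro v hv
      rw [Function.mem_support] at hv
      obtain ⟨i, -, hi⟩ := Finset.exists_ne_zero_of_sum_ne_zero hv
      exact Set.mem_iUnion.2 ⟨i, hi⟩
  -- the factors
  have hfac : ∀ i, (∃ j, (Z i (j0 i))⁻¹ * Z i j ∉ Set.range (algebraMap k K)) →
      1 ≤ canDeg D0 + S.card ∧ deg k (fun j => (Z i (j0 i))⁻¹ * Z i j) ≤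
        B i * (canDeg D0 + S.card) := fun i hi =>
    hB i K htr D0 hD0 _ S (hcrv i) (by
      rw [Pool.Agent.H84.SM.aeval_smul_hom (Ψ i) (N i) (hΨh i)]
      exact mul_ne_zero (hinv i _) (hΨz i)) hi
  have hex : ∃ i, ∃ j, (Z i (j0 i))⁻¹ * Z i j ∉ Set.range (algebraMap k K) := by
    by_contra hcon
    push Not at hcon
    obtain ⟨j, hj⟩ := hnc
    refine hj (hconst ?_ j)
    intro q
    rw [hz', hzz]
    exact hcon (ε q).1 (ε q).2
  have hχ : 1 ≤ canDeg D0 + S.card := by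
    obtain ⟨i, hi⟩ := hex
    exact (hfac i hi).1
  have hdi : ∀ i, (deg k (fun j => (Z i (j0 i))⁻¹ * Z i j) : ℤ) ≤
      B i * (canDeg D0 + S.card) := by
    intro i
    by_cases hi : ∃ j, (Z i (j0 i))⁻¹ * Z i j ∉ Set.range (algebraMap k K)
    · exact (hfac i hi).2
    · push Not at hi
      have h1 : deg k (fun j => (Z i (j0 i))⁻¹ * Z i j) = 0 := by
        unfold deg
        refine finsum_eq_zero_of_forall_eq_zero fun v => ?_
        refine Nat.eq_zero_of_le_zero ?_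
        unfold poleOrder
        refine Finset.sup_le fun j _ => ?_
        obtain ⟨a, ha⟩ := hi j
        change (-(v.ord ((Z i (j0 i))⁻¹ * Z i j))).toNat ≤ 0
        rw [← ha]
        rcases ge_const v a with h | h
        · rw [h, v.ord_zero]
          simp
        · omega
      rw [h1]
      push_cast
      exact mul_nonneg (Int.natCast_nonneg _) (by omega)
  have h1 : (deg k z : ℤ) ≤ ((∑ s, ∑ i, m s i : ℕ) : ℤ) * deg k z' := by exact_mod_cast hdeg
  have h2 : (deg k z' : ℤ) ≤ ∑ i, (deg k (fun j => (Z i (j0 i))⁻¹ * Z i j) : ℤ) := by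
    exact_mod_cast hsum
  have h3 : (deg k z' : ℤ) ≤ (∑ i, (B i : ℤ)) * (canDeg D0 + S.card) := by
    rw [Finset.sum_mul]
    exact h2.trans (Finset.sum_le_sum fun i _ => hdi i)
  calc (deg k z : ℤ) ≤ ((∑ s, ∑ i, m s i : ℕ) : ℤ) * deg k z' := h1
    _ ≤ ((∑ s, ∑ i, m s i : ℕ) : ℤ) * ((∑ i, (B i : ℤ)) * (canDeg D0 + S.card)) :=
        mul_le_mul_of_nonneg_left h3 (Int.natCast_nonneg _)
    _ = _ := by
        push_cast
        ring

end Pool.Agent.H70.ND
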